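import Pool.Agent.H25.Kap2

set_option autoImplicit false

namespace Pool.Agent.Results.MP_3edc48_gt.NonM

open Pool.Agent.H25.Kap

theorem result :
    IsLeast {c : Cardinal | ∃ X : Set ℝ, ¬ KappaFrechet (Cp X) ∧ Cardinal.mk X = c} nonM :=
  main

end Pool.Agent.Results.MP_3edc48_gt.NonM
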